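import Pool.Agent.H82.NS.Def
import Pool.Agent.H12.ON.Uni
import Pool.Agent.H12.OG.Def

/-! # [H12 SF COR] Coordinates: `t = X + c Y` for a plane curve whose top form does not vanish at `(-c, 1)`

`F ∈ k[X,Y]` of degree `≤ d`, `F(X,Y) = 0`, top form at `(-c,1)` not zero. `cor_ex`: a natural number `c ≤ d` with this property exists. `cor_y`, `cor_x`: `X`, `Y` are integral over `k[t]`.
`cor_fin`: `[L : k(t)] ≤ d` for `L = k(X,Y)`. `cor_yt`, `cor_xt`: `X/t`, `Y/t` are in every valuation ring over `k` without `t`. -/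

namespace Pool.Agent.H12.SF

open IntermediateField Finset Pool.Agent.H12.ON Pool.Agent.H12.OG Pool.Agent.H82.NS

/-- the exponent `(i, j)` -/
noncomputable def mij (i j : ℕ) : Fin 2 →₀ ℕ := Finsupp.single 0 i + Finsupp.single 1 j

theorem mij_zero (i j : ℕ) : mij i j 0 = i := by
  unfold mij
  simp

theorem mij_one (i j : ℕ) : mij i j 1 = j := by
  unfold mij
  simp

theorem mij_eta (m : Fin 2 →₀ ℕ) : mij (m 0) (m 1) = m := by
  ext i
  fin_cases i
  · exact mij_zero _ _
  · exact mij_one _ _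

theorem cor_exp {k A : Type} [Field k] [CommRing A] [Algebra k A] {d : ℕ} {q : MvPolynomial (Fin 2) k}
    (hq : q.totalDegree ≤ d) (a b : A) : MvPolynomial.aeval ![a, b] q =
      ∑ i ∈ range (d + 1), ∑ j ∈ range (d + 1 - i), algebraMap k A (q.coeff (mij i j)) * a ^ i * b ^ j := by
  classical
  rw [Finset.sum_sigma', MvPolynomial.aeval_def, MvPolynomial.eval₂_eq']
  have hsub : q.support ⊆ ((range (d + 1)).sigma fun i => range (d + 1 - i)).image
      (fun u : (_ : ℕ) × ℕ => mij u.1 u.2) := by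
    intro m hm
    have h1 := (MvPolynomial.le_totalDegree hm).trans hq
    rw [Finsupp.sum_fintype _ _ (fun _ => rfl), Fin.sum_univ_two] at h1
    refine mem_image.2 ⟨⟨m 0, m 1⟩, ?_, mij_eta m⟩
    rw [mem_sigma, mem_range, mem_range]
    constructor
    · show m 0 < d + 1
      omega
    · show m 1 < d + 1 - m 0
      omega
  rw [Finset.sum_subset hsub, Finset.sum_image]
  · refine Finset.sum_congr rfl fun u _ => ?_
    rw [Fin.prod_univ_two, mij_zero, mij_one]
    show _ * (a ^ u.1 * b ^ u.2) = _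
    rw [mul_assoc]
  · rintro ⟨u1, u2⟩ _ ⟨v1, v2⟩ _ h
    have h0 := DFunLike.congr_fun h 0
    have h1 := DFunLike.congr_fun h 1
    simp only [mij_zero, mij_one] at h0 h1
    subst h0
    subst h1
    rfl
  · intro m _ hm
    rw [MvPolynomial.notMem_support_iff.1 hm, map_zero, zero_mul]

/-- the top form at `(-c, 1)` -/
noncomputable def tpf {k : Type} [Field k] (d : ℕ) (F : MvPolynomial (Fin 2) k) (c : k) : k :=
  ∑ i ∈ range (d + 1), F.coeff (Finsupp.single 0 i + Finsupp.single 1 (d - i)) * (-c) ^ i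

private theorem lin_deg {k : Type} [Field k] {d : ℕ} {F : MvPolynomial (Fin 2) k} (hF : F.totalDegree ≤ d) (c : k) :
    (MvPolynomial.aeval (![MvPolynomial.X 0 - MvPolynomial.C c * MvPolynomial.X 1, MvPolynomial.X 1] :
      Fin 2 → MvPolynomial (Fin 2) k) F).totalDegree ≤ d := by
  rw [cor_exp hF]
  refine MvPolynomial.totalDegree_finsetSum_le fun i hi => MvPolynomial.totalDegree_finsetSum_le fun j hj => ?_
  rw [mem_range] at hi hj
  have h1 : (MvPolynomial.X 0 - MvPolynomial.C c * MvPolynomial.X 1 : MvPolynomial (Fin 2) k).totalDegree ≤ 1 := by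
    refine (MvPolynomial.totalDegree_sub _ _).trans (max_le ?_ ?_)
    · rw [MvPolynomial.totalDegree_X]
    · refine (MvPolynomial.totalDegree_mul _ _).trans ?_
      rw [MvPolynomial.totalDegree_C, MvPolynomial.totalDegree_X]
  have h2 : (algebraMap k (MvPolynomial (Fin 2) k) (F.coeff (mij i j))).totalDegree = 0 :=
    MvPolynomial.totalDegree_C _
  refine (MvPolynomial.totalDegree_mul _ _).trans ?_
  have h3 := MvPolynomial.totalDegree_mul (algebraMap k (MvPolynomial (Fin 2) k) (F.coeff (mij i j)))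
    ((MvPolynomial.X 0 - MvPolynomial.C c * MvPolynomial.X 1 : MvPolynomial (Fin 2) k) ^ i)
  have h4 := MvPolynomial.totalDegree_pow (MvPolynomial.X 0 - MvPolynomial.C c * MvPolynomial.X 1 :
    MvPolynomial (Fin 2) k) i
  have h5 := MvPolynomial.totalDegree_pow (MvPolynomial.X 1 : MvPolynomial (Fin 2) k) j
  rw [MvPolynomial.totalDegree_X] at h5
  have h6 : i * (MvPolynomial.X 0 - MvPolynomial.C c * MvPolynomial.X 1 : MvPolynomial (Fin 2) k).totalDegree ≤ i * 1 :=
    Nat.mul_le_mul_left _ h1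
  omega

theorem cor_rel {k L : Type} [Field k] [Field L] [Algebra k L] {d : ℕ} {F : MvPolynomial (Fin 2) k}
    (hF : F.totalDegree ≤ d) (c : k) {X Y : L} (h0 : MvPolynomial.aeval ![X, Y] F = 0) :
    ∃ b : ℕ → ℕ → k, b 0 d = tpf d F c ∧ ∑ i ∈ range (d + 1), ∑ j ∈ range (d + 1 - i),
      algebraMap k L (b i j) * (X + algebraMap k L c * Y) ^ i * Y ^ j = 0 := by
  classical
  obtain ⟨F', hF'⟩ : ∃ F' : MvPolynomial (Fin 2) k, F' = MvPolynomial.aeval
    (![MvPolynomial.X 0 - MvPolynomial.C c * MvPolynomial.X 1, MvPolynomial.X 1] : Fin 2 → MvPolynomial (Fin 2) k) F :=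
    ⟨_, rfl⟩
  have hd' : F'.totalDegree ≤ d := by
    rw [hF']
    exact lin_deg hF c
  have hsub : ∀ (A : Type) [CommRing A] [Algebra k A] (a b : A), MvPolynomial.aeval ![a, b] F' =
      MvPolynomial.aeval ![a - algebraMap k A c * b, b] F := by
    intro A _ _ a b
    rw [hF']
    have h1 : (MvPolynomial.aeval ![a, b] : MvPolynomial (Fin 2) k →ₐ[k] A).comp (MvPolynomial.aeval
        (![MvPolynomial.X 0 - MvPolynomial.C c * MvPolynomial.X 1, MvPolynomial.X 1] :
          Fin 2 → MvPolynomial (Fin 2) k)) = MvPolynomial.aeval ![a - algebraMap k A c * b, b] := by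
      apply MvPolynomial.algHom_ext
      intro i
      fin_cases i
      · simp [MvPolynomial.algHom_C]
      · simp
    exact DFunLike.congr_fun h1 F
  refine ⟨fun i j => F'.coeff (mij i j), ?_, ?_⟩
  · have h1 := hsub (Polynomial k) 0 Polynomial.X
    rw [cor_exp hd', cor_exp hF] at h1
    have h2 := congrArg (fun q => Polynomial.coeff q d) h1
    simp only [Polynomial.finsetSum_coeff] at h2
    have h3 : ∑ i ∈ range (d + 1), ∑ j ∈ range (d + 1 - i), (algebraMap k (Polynomial k) (F'.coeff (mij i j)) *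
        0 ^ i * Polynomial.X ^ j).coeff d = F'.coeff (mij 0 d) := by
      rw [Finset.sum_eq_single 0, Finset.sum_eq_single d]
      · rw [pow_zero, mul_one]
        change (Polynomial.C (F'.coeff (mij 0 d)) * Polynomial.X ^ d).coeff d = _
        rw [Polynomial.coeff_C_mul, Polynomial.coeff_X_pow, if_pos rfl, mul_one]
      · intro j _ hj
        rw [pow_zero, mul_one]
        change (Polynomial.C (F'.coeff (mij 0 j)) * Polynomial.X ^ j).coeff d = _
        rw [Polynomial.coeff_C_mul, Polynomial.coeff_X_pow, if_neg (Ne.symm hj), mul_zero]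
      · intro h
        exact absurd (mem_range.2 (by omega)) h
      · intro i _ hi
        refine Finset.sum_eq_zero fun j _ => ?_
        rw [zero_pow hi, mul_zero, zero_mul, Polynomial.coeff_zero]
      · intro h
        exact absurd (mem_range.2 (by omega)) h
    have h4 : ∑ i ∈ range (d + 1), ∑ j ∈ range (d + 1 - i), (algebraMap k (Polynomial k) (F.coeff (mij i j)) *
        (0 - algebraMap k (Polynomial k) c * Polynomial.X) ^ i * Polynomial.X ^ j).coeff d = tpf d F c := by
      unfold tpf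
      refine Finset.sum_congr rfl fun i hi => ?_
      rw [mem_range] at hi
      have h5 : ∀ j, (algebraMap k (Polynomial k) (F.coeff (mij i j)) *
          (0 - algebraMap k (Polynomial k) c * Polynomial.X) ^ i * Polynomial.X ^ j) =
          Polynomial.C (F.coeff (mij i j) * (-c) ^ i) * Polynomial.X ^ (i + j) := by
        intro j
        change Polynomial.C (F.coeff (mij i j)) * (0 - Polynomial.C c * Polynomial.X) ^ i * Polynomial.X ^ j = _
        rw [zero_sub, ← neg_mul, mul_pow, ← Polynomial.C_neg, ← Polynomial.C_pow, Polynomial.C_mul, pow_add]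
        ring
      rw [Finset.sum_congr rfl fun j _ => by rw [h5 j]]
      rw [Finset.sum_eq_single (d - i)]
      · rw [Polynomial.coeff_C_mul, Polynomial.coeff_X_pow, if_pos (by omega), mul_one]
        rfl
      · intro j _ hj
        rw [Polynomial.coeff_C_mul, Polynomial.coeff_X_pow, if_neg (by omega), mul_zero]
      · intro h
        exact absurd (mem_range.2 (by omega)) h
    rw [h3, h4] at h2
    exact h2
  · have h1 := hsub L (X + algebraMap k L c * Y) Y
    rw [add_sub_cancel_right, h0, cor_exp hd'] at h1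
    exact h1

theorem cor_ex {k : Type} [Field k] [CharZero k] {d : ℕ} {F : MvPolynomial (Fin 2) k} (hF : F.totalDegree = d)
    (h0 : F ≠ 0) : ∃ c : ℕ, c ≤ d ∧ tpf d F (c : k) ≠ 0 := by
  classical
  by_contra hno
  push Not at hno
  obtain ⟨q, hq⟩ : ∃ q : Polynomial k, q = ∑ i ∈ range (d + 1), Polynomial.C (F.coeff (mij i (d - i))) *
    Polynomial.X ^ i := ⟨_, rfl⟩
  have hqd : q.natDegree ≤ d := by
    rw [hq]
    refine Polynomial.natDegree_sum_le_of_forall_le _ _ fun i hi => ?_
    refine (Polynomial.natDegree_C_mul_X_pow_le _ _).trans ?_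
    rw [mem_range] at hi
    omega
  have hqc : ∀ i, i ≤ d → q.coeff i = F.coeff (mij i (d - i)) := by
    intro i hi
    rw [hq, Polynomial.finsetSum_coeff, Finset.sum_eq_single i]
    · rw [Polynomial.coeff_C_mul, Polynomial.coeff_X_pow, if_pos rfl, mul_one]
    · intro j _ hj
      rw [Polynomial.coeff_C_mul, Polynomial.coeff_X_pow, if_neg (Ne.symm hj), mul_zero]
    · intro h
      exact absurd (mem_range.2 (by omega)) h
  have hq0 : q = 0 := by
    refine Polynomial.eq_zero_of_natDegree_lt_card_of_eval_eq_zero q (f := fun i : Fin (d + 1) => -((i : ℕ) : k)) ?_ ?_ ?_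
    · intro a b hab
      have h1 := neg_injective hab
      exact Fin.ext (Nat.cast_injective h1)
    · intro i
      rw [hq, Polynomial.eval_finsetSum]
      have h1 := hno i (Nat.lt_succ_iff.1 i.2)
      unfold tpf at h1
      rw [← h1]
      refine Finset.sum_congr rfl fun j _ => ?_
      rw [Polynomial.eval_mul, Polynomial.eval_C, Polynomial.eval_pow, Polynomial.eval_X]
      rfl
    · rw [Fintype.card_fin]
      omega
  have hne : F.support.Nonempty := by
    rw [Finset.nonempty_iff_ne_empty]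
    intro h
    exact h0 (MvPolynomial.support_eq_empty.1 h)
  obtain ⟨m, hm, hmd⟩ := Finset.exists_mem_eq_sup F.support hne (fun s : Fin 2 →₀ ℕ => s.sum fun _ e => e)
  have hmd' : m 0 + m 1 = d := by
    rw [← hF]
    have h1 : F.totalDegree = m.sum fun _ e => e := hmd
    rw [h1, Finsupp.sum_fintype _ _ (fun _ => rfl), Fin.sum_univ_two]
  have h1 := hqc (m 0) (by omega)
  have h2 : d - m 0 = m 1 := by omega
  rw [hq0, Polynomial.coeff_zero, h2, mij_eta] at h1
  exact (MvPolynomial.mem_support_iff.1 hm) h1.symm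

theorem int_gen {R L : Type} [CommRing R] [Nontrivial R] [CommRing L] [Algebra R L] {D : ℕ} (r : ℕ → ℕ → R) (hl : r 0 D = 1)
    {Y : L} (h : ∑ i ∈ range (D + 1), ∑ j ∈ range (D + 1 - i), algebraMap R L (r i j) * Y ^ j = 0) :
    ∃ q : Polynomial R, q.Monic ∧ q.natDegree ≤ D ∧ Polynomial.eval₂ (algebraMap R L) Y q = 0 := by
  obtain ⟨q, hq⟩ : ∃ q : Polynomial R, q = ∑ i ∈ range (D + 1), ∑ j ∈ range (D + 1 - i),
    Polynomial.C (r i j) * Polynomial.X ^ j := ⟨_, rfl⟩
  have hd : q.natDegree ≤ D := by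
    rw [hq]
    refine Polynomial.natDegree_sum_le_of_forall_le _ _ fun i hi => ?_
    refine Polynomial.natDegree_sum_le_of_forall_le _ _ fun j hj => ?_
    refine (Polynomial.natDegree_C_mul_X_pow_le _ _).trans ?_
    rw [mem_range] at hi hj
    omega
  refine ⟨q, Polynomial.monic_of_natDegree_le_of_coeff_eq_one D hd ?_, hd, ?_⟩
  · rw [hq]
    simp only [Polynomial.finsetSum_coeff, Polynomial.coeff_C_mul, Polynomial.coeff_X_pow]
    rw [Finset.sum_eq_single 0, Finset.sum_eq_single D]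
    · rw [if_pos rfl, mul_one, hl]
    · intro j _ hj
      rw [if_neg (Ne.symm hj), mul_zero]
    · intro hD
      exact (hD (mem_range.2 (by omega))).elim
    · intro i _ hi
      refine Finset.sum_eq_zero fun j hj => ?_
      rw [mem_range] at hj
      rw [if_neg (by omega), mul_zero]
    · intro hD
      exact (hD (mem_range.2 (by omega))).elim
  · rw [← h, hq, Polynomial.eval₂_finsetSum]
    refine Finset.sum_congr rfl fun i _ => ?_
    rw [Polynomial.eval₂_finsetSum]
    refine Finset.sum_congr rfl fun j _ => ?_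
    rw [Polynomial.eval₂_mul, Polynomial.eval₂_C, Polynomial.eval₂_X_pow]

variable {k L : Type} [Field k] [Field L] [Algebra k L] {d : ℕ} {F : MvPolynomial (Fin 2) k}

/-- the normalised relation -/
theorem cor_nrm (hF : F.totalDegree ≤ d) {c : k} (hc : tpf d F c ≠ 0) {X Y : L}
    (h0 : MvPolynomial.aeval ![X, Y] F = 0) :
    ∃ b : ℕ → ℕ → k, b 0 d = 1 ∧ ∑ i ∈ range (d + 1), ∑ j ∈ range (d + 1 - i),
      algebraMap k L (b i j) * (X + algebraMap k L c * Y) ^ i * Y ^ j = 0 := by
  obtain ⟨b, hb, h1⟩ := cor_rel hF c h0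
  refine ⟨fun i j => (tpf d F c)⁻¹ * b i j, ?_, ?_⟩
  · show (tpf d F c)⁻¹ * b 0 d = 1
    rw [hb, inv_mul_cancel₀ hc]
  · have h2 := congrArg (fun z => algebraMap k L (tpf d F c)⁻¹ * z) h1
    simp only [Finset.mul_sum, mul_zero] at h2
    rw [← h2]
    refine Finset.sum_congr rfl fun i _ => Finset.sum_congr rfl fun j _ => ?_
    rw [map_mul]
    ring

theorem cor_y (hF : F.totalDegree ≤ d) {c : k} (hc : tpf d F c ≠ 0) {X Y : L}
    (h0 : MvPolynomial.aeval ![X, Y] F = 0) : IsInt k (X + algebraMap k L c * Y) Y := by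
  obtain ⟨b, hb, h1⟩ := cor_nrm hF hc h0
  obtain ⟨t, ht⟩ : ∃ t : L, t = X + algebraMap k L c * Y := ⟨_, rfl⟩
  rw [← ht] at h1 ⊢
  have hu : t ∈ Algebra.adjoin k {t} := Algebra.self_mem_adjoin_singleton k t
  obtain ⟨q, hq, -, hq0⟩ := int_gen (R := Algebra.adjoin k {t}) (L := L)
    (fun i j => algebraMap k (Algebra.adjoin k {t}) (b i j) * ⟨t, hu⟩ ^ i) (D := d) (Y := Y)
    (by rw [hb, map_one, one_mul, pow_zero]) (by
      rw [← h1]
      refine Finset.sum_congr rfl fun i _ => Finset.sum_congr rfl fun j _ => ?_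
      rw [map_mul, map_pow]
      rfl)
  exact ⟨q, hq, hq0⟩

theorem cor_x (hF : F.totalDegree ≤ d) {c : k} (hc : tpf d F c ≠ 0) {X Y : L}
    (h0 : MvPolynomial.aeval ![X, Y] F = 0) : IsInt k (X + algebraMap k L c * Y) X := by
  have h1 := cor_y hF hc h0
  obtain ⟨t, ht⟩ : ∃ t : L, t = X + algebraMap k L c * Y := ⟨_, rfl⟩
  rw [← ht] at h1 ⊢
  have h2 : X = t - algebraMap k L c * Y := by rw [ht]; ring
  have h3 : IsInt k t t := isIntegral_algebraMap (R := Algebra.adjoin k {t})
    (x := ⟨t, Algebra.self_mem_adjoin_singleton _ _⟩)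
  have h4 : IsInt k t (algebraMap k L c) := isIntegral_algebraMap (R := Algebra.adjoin k {t})
    (x := algebraMap k (Algebra.adjoin k {t}) c)
  rw [h2]
  exact IsIntegral.sub h3 (IsIntegral.mul h4 h1)

theorem cor_yt (hF : F.totalDegree ≤ d) {c : k} (hc : tpf d F c ≠ 0) {X Y : L}
    (h0 : MvPolynomial.aeval ![X, Y] F = 0) {O : ValuationSubring L} (hO : Ov k O)
    (ht : X + algebraMap k L c * Y ∉ O) : Y / (X + algebraMap k L c * Y) ∈ O := by
  obtain ⟨b, hb, h1⟩ := cor_nrm hF hc h0
  obtain ⟨t, htd⟩ : ∃ t : L, t = X + algebraMap k L c * Y := ⟨_, rfl⟩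
  rw [← htd] at h1 ht ⊢
  have ht0 : t ≠ 0 := by
    rintro rfl
    exact ht O.zero_mem
  have hti : t⁻¹ ∈ O := (O.mem_or_inv_mem t).resolve_left ht
  obtain ⟨ι, hι⟩ : ∃ ι : k →+* O, ∀ e, ((ι e : O) : L) = algebraMap k L e :=
    ⟨(algebraMap k L).codRestrict O.toSubring hO, fun e => rfl⟩
  obtain ⟨q, hq, -, hq0⟩ := int_gen (R := O) (L := L) (fun i j => ι (b i j) * (⟨t⁻¹, hti⟩ : O) ^ (d - i - j))
    (D := d) (Y := Y / t) (by rw [hb, map_one, one_mul, Nat.sub_zero, Nat.sub_self, pow_zero]) (by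
      have h2 := congrArg (fun z => z * t⁻¹ ^ d) h1
      simp only [Finset.sum_mul, zero_mul] at h2
      rw [← h2]
      refine Finset.sum_congr rfl fun i hi => Finset.sum_congr rfl fun j hj => ?_
      rw [mem_range] at hi hj
      rw [map_mul, map_pow]
      change ((ι (b i j) : O) : L) * (t⁻¹) ^ (d - i - j) * (Y / t) ^ j = _
      rw [hι]
      have h3 : t⁻¹ ^ d = t⁻¹ ^ i * (t⁻¹ ^ j * t⁻¹ ^ (d - i - j)) := by
        rw [← pow_add, ← pow_add]
        congr 1
        omega
      have h4 : t ^ i * t⁻¹ ^ i = 1 := by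
        rw [← mul_pow, mul_inv_cancel₀ ht0, one_pow]
      rw [h3, div_eq_mul_inv, mul_pow]
      calc algebraMap k L (b i j) * t⁻¹ ^ (d - i - j) * (Y ^ j * t⁻¹ ^ j)
          = algebraMap k L (b i j) * 1 * Y ^ j * (t⁻¹ ^ j * t⁻¹ ^ (d - i - j)) := by ring
        _ = _ := by rw [← h4]; ring)
  have hint : IsIntegral O (Y / t) := ⟨q, hq, hq0⟩
  obtain ⟨w, hw⟩ := (IsIntegrallyClosed.isIntegral_iff (R := O) (K := L)).1 hint
  rw [← hw]
  exact w.2

theorem cor_xt (hF : F.totalDegree ≤ d) {c : k} (hc : tpf d F c ≠ 0) {X Y : L}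
    (h0 : MvPolynomial.aeval ![X, Y] F = 0) {O : ValuationSubring L} (hO : Ov k O)
    (ht : X + algebraMap k L c * Y ∉ O) : X / (X + algebraMap k L c * Y) ∈ O := by
  have h1 := cor_yt hF hc h0 hO ht
  obtain ⟨t, htd⟩ : ∃ t : L, t = X + algebraMap k L c * Y := ⟨_, rfl⟩
  rw [← htd] at h1 ht ⊢
  have ht0 : t ≠ 0 := by
    rintro rfl
    exact ht O.zero_mem
  have h2 : X / t = 1 - algebraMap k L c * (Y / t) := by
    have h3 : X = t - algebraMap k L c * Y := by rw [htd]; ring
    rw [h3, sub_div, div_self ht0, mul_div_assoc]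
  rw [h2]
  exact sub_mem O.one_mem (O.mul_mem _ _ (hO c) h1)

theorem cor_fin (hF : F.totalDegree ≤ d) {c : k} (hc : tpf d F c ≠ 0) {X Y : L}
    (h0 : MvPolynomial.aeval ![X, Y] F = 0) (hL : IntermediateField.adjoin k {X, Y} = ⊤) :
    FiniteDimensional k⟮X + algebraMap k L c * Y⟯ L ∧ Module.finrank k⟮X + algebraMap k L c * Y⟯ L ≤ d := by
  obtain ⟨b, hb, h1⟩ := cor_nrm hF hc h0
  obtain ⟨t, ht⟩ : ∃ t : L, t = X + algebraMap k L c * Y := ⟨_, rfl⟩
  rw [← ht] at h1 ⊢
  have hu : t ∈ k⟮t⟯ := IntermediateField.mem_adjoin_simple_self k t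
  obtain ⟨q, hq, hqd, hq0⟩ := int_gen (R := k⟮t⟯) (L := L)
    (fun i j => algebraMap k k⟮t⟯ (b i j) * ⟨t, hu⟩ ^ i) (D := d) (Y := Y)
    (by rw [hb, map_one, one_mul, pow_zero]) (by
      rw [← h1]
      refine Finset.sum_congr rfl fun i _ => Finset.sum_congr rfl fun j _ => ?_
      rw [map_mul, map_pow]
      rfl)
  have hY : IsIntegral k⟮t⟯ Y := ⟨q, hq, hq0⟩
  have htop : IntermediateField.adjoin k⟮t⟯ {Y} = ⊤ := by
    rw [eq_top_iff]
    intro z _
    have h2 : z ∈ IntermediateField.adjoin k {X, Y} := by rw [hL]; exact IntermediateField.mem_top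
    have h3 : IntermediateField.adjoin k {X, Y} ≤ (IntermediateField.adjoin k⟮t⟯ {Y}).restrictScalars k := by
      rw [IntermediateField.adjoin_le_iff]
      have hYm : Y ∈ IntermediateField.adjoin k⟮t⟯ {Y} := IntermediateField.mem_adjoin_simple_self _ _
      have htm : t ∈ IntermediateField.adjoin k⟮t⟯ {Y} :=
        (IntermediateField.adjoin k⟮t⟯ {Y}).algebraMap_mem (⟨t, hu⟩ : k⟮t⟯)
      have hcm : algebraMap k L c ∈ IntermediateField.adjoin k⟮t⟯ {Y} :=
        (IntermediateField.adjoin k⟮t⟯ {Y}).algebraMap_mem (algebraMap k k⟮t⟯ c)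
      rintro w (rfl | rfl)
      · have h4 : w = t - algebraMap k L c * Y := by rw [ht]; ring
        rw [h4]
        exact sub_mem htm (mul_mem hcm hYm)
      · exact hYm
    exact h3 h2
  have hfd : FiniteDimensional k⟮t⟯ (IntermediateField.adjoin k⟮t⟯ {Y}) :=
    IntermediateField.adjoin.finiteDimensional hY
  have hfr : Module.finrank k⟮t⟯ (IntermediateField.adjoin k⟮t⟯ {Y}) ≤ d := by
    rw [IntermediateField.adjoin.finrank hY]
    exact (Polynomial.natDegree_le_natDegree (minpoly.min k⟮t⟯ Y hq (by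
      rw [Polynomial.aeval_def]; exact hq0))).trans hqd
  rw [htop] at hfd hfr
  refine ⟨(IntermediateField.topEquiv (F := k⟮t⟯) (E := L)).toLinearEquiv.finiteDimensional, ?_⟩
  rw [IntermediateField.finrank_top'] at hfr
  exact hfr

end Pool.Agent.H12.SF
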