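import Pool.Agent.H12.SF.Wd
import Pool.Agent.H97.SI.TRA

/-! # [H12 SF PPC] The class of a sequence of monic irreducible polynomials

`ppc`: `p N ∈ ℤ[X]` monic, irreducible over `ℚ`, of degree `r` for almost all `N`, coefficients `≤ (H N + 2)^C`. There is `P` over `Q0 H`, monic of degree `r`, with the classes as coefficients, irreducible over `QS` and over `Q0 H` (transfer, as in H8/OA/Ng2 `np`), and
`P(cl γ) ∈ (V0 H).nonunits` if `|γ N - al N|` is smaller than all negative powers of `H N + 2` for bounded roots `al N` of `p N`. -/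

namespace Pool.Agent.H12.SF

open Filter IntermediateField Pool.Agent.H82.NS Pool.Agent.H12.ON Pool.Agent.H97.SI Polynomial Pool.Agent.H8.OA

theorem non_of {H : ℕ → ℕ} {z : ℕ → ℚ}
    (h : ∀ C : ℕ, ∀ᶠ N in UU, |(z N : ℝ)| * ((H N + 2 : ℕ) : ℝ) ^ C < 1) : (cl z : QS) ∈ (V0 H).nonunits := by
  rw [(V0 H).mem_nonunits_iff_or]
  by_contra hc
  push Not at hc
  obtain ⟨h0, r, ⟨f, ⟨C, hC⟩, rfl⟩, hr⟩ := hc
  have h1 : ∀ᶠ N in UU, z N ≠ 0 := by
    refine Ultrafilter.eventually_not.2 fun h2 => h0 ?_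
    rw [cl_zero, cl_eq]
    exact h2
  rw [cl_inv] at hr
  have h2 := cl_le.1 ((le_abs_self _).trans hr)
  have h3 := (neg_le_abs _).trans hr
  rw [cl_neg] at h3
  have h3 := cl_le.1 h3
  obtain ⟨N, hz, h4, h5, h6⟩ := (h1.and (h2.and (h3.and (h C)))).exists
  have h7 : |z N|⁻¹ ≤ f N := by
    rw [← abs_inv]
    exact abs_le'.2 ⟨h4, h5⟩
  have h8 : f N ≤ ((H N + 2 : ℕ) : ℚ) ^ C := by
    have e1 : (1 : ℚ) ≤ ((f N).den : ℚ) := by exact_mod_cast (f N).den_pos
    have e2 : (f N : ℚ) * ((f N).den : ℚ) = ((f N).num : ℚ) := Rat.mul_den_eq_num (f N)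
    have e3 : ((f N).num : ℚ) ≤ ((f N).num.natAbs : ℚ) := by
      rw [Nat.cast_natAbs]
      exact_mod_cast le_abs_self _
    have e4 : ((f N).num.natAbs : ℚ) ≤ ((H N + 2 : ℕ) : ℚ) ^ C := by exact_mod_cast (hC N).1
    have e5 : 0 < f N := (inv_pos.2 (abs_pos.2 hz)).trans_le h7
    calc f N ≤ f N * ((f N).den : ℚ) := le_mul_of_one_le_right e5.le e1
      _ ≤ _ := by rw [e2]; exact e3.trans e4
  have h9 : |z N| * ((H N + 2 : ℕ) : ℚ) ^ C < 1 := by
    have e1 : ((|z N| * ((H N + 2 : ℕ) : ℚ) ^ C : ℚ) : ℝ) < ((1 : ℚ) : ℝ) := by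
      push_cast at h6 ⊢
      exact h6
    exact_mod_cast e1
  have h10 : |z N| * |z N|⁻¹ = 1 := mul_inv_cancel₀ (abs_pos.2 hz).ne'
  have h11 : |z N| * |z N|⁻¹ ≤ |z N| * ((H N + 2 : ℕ) : ℚ) ^ C :=
    mul_le_mul_of_nonneg_left (h7.trans h8) (abs_nonneg _)
  rw [h10] at h11
  exact absurd h9 (not_lt.2 h11)

theorem h2le (H : ℕ) : (2 : ℝ) ≤ ((H + 2 : ℕ) : ℝ) := by
  push_cast
  have : (0 : ℝ) ≤ (H : ℝ) := Nat.cast_nonneg _
  linarith

private theorem ev_bd (p : ℤ[X]) {r : ℕ} (hr : p.natDegree ≤ r) {B D a b : ℝ} (hB : 1 ≤ B) (ha : |a| ≤ B)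
    (hb : |b| ≤ B) (hD : ∀ i, |(p.coeff i : ℝ)| ≤ D) :
    |aeval a p - aeval b p| ≤ |a - b| * ((r + 1) * (D * (r * B ^ r))) := by
  have hD0 : 0 ≤ D := (abs_nonneg _).trans (hD 0)
  rw [aeval_eq_sum_range' (Nat.lt_succ_of_le hr), aeval_eq_sum_range' (Nat.lt_succ_of_le hr), ← Finset.sum_sub_distrib]
  refine (Finset.abs_sum_le_sum_abs _ _).trans ?_
  have h1 : ∀ i ∈ Finset.range (r + 1), |p.coeff i • a ^ i - p.coeff i • b ^ i| ≤ |a - b| * (D * (r * B ^ r)) := by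
    intro i hi
    have hi' : i ≤ r := Nat.lt_succ_iff.1 (Finset.mem_range.1 hi)
    rw [zsmul_eq_mul, zsmul_eq_mul, ← mul_sub, abs_mul]
    have h2 : |a ^ i - b ^ i| ≤ |a - b| * (r * B ^ r) := by
      refine (abs_pow_sub_pow_le a b i).trans ?_
      rw [mul_assoc]
      refine mul_le_mul_of_nonneg_left ?_ (abs_nonneg _)
      refine mul_le_mul (by exact_mod_cast hi') ?_ (by positivity) (Nat.cast_nonneg _)
      calc max |a| |b| ^ (i - 1) ≤ B ^ (i - 1) := pow_le_pow_left₀ (le_max_of_le_left (abs_nonneg _)) (max_le ha hb) _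
        _ ≤ B ^ r := pow_le_pow_right₀ hB (by omega)
    calc |(p.coeff i : ℝ)| * |a ^ i - b ^ i| ≤ D * (|a - b| * (r * B ^ r)) :=
          mul_le_mul (hD i) h2 (abs_nonneg _) hD0
      _ = _ := by ring
  refine (Finset.sum_le_sum h1).trans ?_
  rw [Finset.sum_const, Finset.card_range, nsmul_eq_mul]
  push_cast
  exact le_of_eq (by ring)

theorem ppc {H : ℕ → ℕ} {p : ℕ → ℤ[X]} {r C : ℕ} (hpm : ∀ N, (p N).Monic)
    (hpi : ∀ N, Irreducible ((p N).map (Int.castRingHom ℚ))) (hr1 : 1 ≤ r) (hr : ∀ᶠ N in UU, (p N).natDegree = r)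
    (hcb : ∀ N i, |(p N).coeff i| ≤ ((H N + 2 : ℕ) : ℤ) ^ C) :
    ∃ P : (Q0 H)[X], P.Monic ∧ P.natDegree = r ∧
      (∀ i, ((P.coeff i : Q0 H) : QS) = cl (fun N => ((p N).coeff i : ℚ))) ∧
      Irreducible (P.map (algebraMap (Q0 H) QS)) ∧ Irreducible P ∧
      ∀ (al : ℕ → ℝ) (γ : ℕ → ℚ), (∀ N, aeval (al N) (p N) = 0) → (∃ C₁ : ℕ, ∀ᶠ N in UU, |al N| ≤ ((H N + 2 : ℕ) : ℝ) ^ C₁) →
        (∀ C₂ : ℕ, ∀ᶠ N in UU, |(γ N : ℝ) - al N| * ((H N + 2 : ℕ) : ℝ) ^ C₂ < 1) →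
        aeval (cl γ : QS) P ∈ (V0 H).nonunits := by
  have hsm : ∀ i, Small H (fun N => ((p N).coeff i : ℚ)) := by
    intro i
    refine ⟨C, fun N => ⟨?_, ?_⟩⟩
    · show (((p N).coeff i : ℤ) : ℚ).num.natAbs ≤ _
      rw [Rat.num_intCast]
      have h3 := hcb N i
      rw [Int.abs_eq_natAbs] at h3
      exact_mod_cast h3
    · show (((p N).coeff i : ℤ) : ℚ).den ≤ _
      rw [Rat.den_intCast]
      exact Nat.one_le_pow _ _ (by omega)
  obtain ⟨c, hc⟩ : ∃ c : ℕ → Q0 H, ∀ i, (c i : QS) = cl (fun N => ((p N).coeff i : ℚ)) :=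
    ⟨fun i => ⟨_, _, hsm i, rfl⟩, fun i => rfl⟩
  have hdeg : (∑ j ∈ Finset.range r, Polynomial.C (c j) * X ^ j : (Q0 H)[X]).degree < (r : WithBot ℕ) := by
    rw [← mem_degreeLT]
    refine Submodule.sum_mem _ fun j hj => ?_
    rw [mem_degreeLT]
    refine (degree_C_mul_X_pow_le _ _).trans_lt ?_
    exact_mod_cast Finset.mem_range.1 hj
  obtain ⟨P, hP⟩ : ∃ P : (Q0 H)[X], P = X ^ r + ∑ j ∈ Finset.range r, Polynomial.C (c j) * X ^ j := ⟨_, rfl⟩
  have hPm : P.Monic := by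
    rw [hP]
    exact monic_X_pow_add hdeg
  have hPd : P.natDegree = r := by
    rw [hP]
    refine natDegree_eq_of_degree_eq_some ?_
    rw [degree_add_eq_left_of_degree_lt (by rw [degree_X_pow]; exact hdeg), degree_X_pow]
  have hPc : ∀ i, ((P.coeff i : Q0 H) : QS) = cl (fun N => ((p N).coeff i : ℚ)) := by
    intro i
    rcases lt_trichotomy i r with hi | hi | hi
    · have h1 : P.coeff i = c i := by
        rw [hP, coeff_add, coeff_X_pow, if_neg hi.ne, zero_add, finsetSum_coeff, Finset.sum_eq_single i]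
        · rw [coeff_C_mul, coeff_X_pow, if_pos rfl, mul_one]
        · intro j _ hj
          rw [coeff_C_mul, coeff_X_pow, if_neg (Ne.symm hj), mul_zero]
        · intro h
          exact absurd (Finset.mem_range.2 hi) h
      rw [h1, hc]
    · have h1 : P.coeff i = 1 := by
        rw [hi, ← hPd]
        exact hPm
      rw [h1]
      change (1 : QS) = _
      rw [cl_one, cl_eq]
      filter_upwards [hr] with N hN
      have h2 : (p N).coeff i = 1 := by
        rw [hi, ← hN]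
        exact hpm N
      rw [h2, Int.cast_one]
    · have h1 : P.coeff i = 0 := coeff_eq_zero_of_natDegree_lt (by rw [hPd]; exact hi)
      rw [h1]
      change (0 : QS) = _
      rw [cl_zero, cl_eq]
      filter_upwards [hr] with N hN
      rw [coeff_eq_zero_of_natDegree_lt (by rw [hN]; exact hi), Int.cast_zero]
  obtain ⟨S, hS⟩ : ∃ S : (ℕ → ℚ)[X], S = X ^ r + ∑ j ∈ Finset.range r, Polynomial.C (fun N => ((p N).coeff j : ℚ)) * X ^ j :=
    ⟨_, rfl⟩
  have hSP : S.map (clH ℚ) = P.map (algebraMap (Q0 H) QS) := by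
    rw [hS, hP]
    simp only [Polynomial.map_add, Polynomial.map_pow, map_X, Polynomial.map_sum, Polynomial.map_mul, map_C]
    congr 1
    refine Finset.sum_congr rfl fun j _ => ?_
    congr 2
    exact (hc j).symm
  have hSN : ∀ N, (p N).natDegree = r → S.map (evN ℚ N) = (p N).map (Int.castRingHom ℚ) := by
    intro N hN
    rw [hS]
    simp only [Polynomial.map_add, Polynomial.map_pow, map_X, Polynomial.map_sum, Polynomial.map_mul, map_C]
    conv_rhs => rw [(p N).as_sum_range_C_mul_X_pow, hN, Finset.sum_range_succ]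
    have h1 : (p N).coeff r = 1 := by
      rw [← hN]
      exact hpm N
    rw [h1, C_1, one_mul, add_comm]
    simp only [Polynomial.map_add, Polynomial.map_pow, map_X, Polynomial.map_sum, Polynomial.map_mul, map_C]
    congr 1
  have hPQ : Irreducible (P.map (algebraMap (Q0 H) QS)) := by
    have hne1 : P.map (algebraMap (Q0 H) QS) ≠ 1 := by
      intro h
      have h1 := congrArg natDegree h
      rw [hPm.natDegree_map, natDegree_one, hPd] at h1
      omega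
    rw [irreducible_of_monic (hPm.map _) hne1]
    intro A B hA hB hAB
    have hl : ∀ q : QS[X], q ∈ lifts (clH ℚ) := by
      intro q
      rw [mem_lifts]
      exact map_surjective _ clH_surj q
    obtain ⟨A', hA', -, hA'm⟩ := lifts_and_natDegree_eq_and_monic (hl A) hA
    obtain ⟨B', hB', -, hB'm⟩ := lifts_and_natDegree_eq_and_monic (hl B) hB
    have h4 : (A' * B').map (clH ℚ) = S.map (clH ℚ) := by
      rw [Polynomial.map_mul, hA', hB', hAB, hSP]
    have h5 := eq1.1 h4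
    obtain ⟨N, hN1, hN2⟩ := (h5.and hr).exists
    rw [hSN N hN2, Polynomial.map_mul] at hN1
    have hne2 : (p N).map (Int.castRingHom ℚ) ≠ 1 := by
      intro h
      have h1 := congrArg natDegree h
      rw [(hpm N).natDegree_map, natDegree_one, hN2] at h1
      omega
    rcases (irreducible_of_monic ((hpm N).map _) hne2).1 (hpi N) _ _ (hA'm.map _) (hB'm.map _) hN1 with h | h
    · left
      have h6 := hA'm.natDegree_map (evN ℚ N)
      rw [h, natDegree_one] at h6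
      have h7 := (hA'm.natDegree_eq_zero).1 h6.symm
      rw [← hA', h7, Polynomial.map_one]
    · right
      have h6 := hB'm.natDegree_map (evN ℚ N)
      rw [h, natDegree_one] at h6
      have h7 := (hB'm.natDegree_eq_zero).1 h6.symm
      rw [← hB', h7, Polynomial.map_one]
  refine ⟨P, hPm, hPd, hPc, hPQ, hPm.irreducible_of_irreducible_map _ _ hPQ, ?_⟩
  rintro al γ hp0 ⟨C₀, hal⟩ hγ
  have hev : aeval (cl γ : QS) P = cl (fun N => eval (γ N) (S.map (evN ℚ N))) := by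
    have e1 : aeval (cl γ : QS) P = eval (clH ℚ γ) (S.map (clH ℚ)) := by
      rw [hSP, eval_map_algebraMap]
      rfl
    have e2 : (fun N => eval (γ N) (S.map (evN ℚ N))) = eval γ S := by
      funext N
      exact eval_map_apply (evN ℚ N) γ
    rw [e1, e2]
    exact eval_map_apply (clH ℚ) γ
  rw [hev]
  refine non_of fun C' => ?_
  obtain ⟨C₁, hC₁⟩ : ∃ C₁ : ℕ, C₁ = (r + 1) + (C + (r + (C₀ + 1) * r)) := ⟨_, rfl⟩
  filter_upwards [hr, hγ (C₁ + C'), hγ 0, hal] with N hN h1 h0 ha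
  rw [hSN N hN]
  have h2 := h2le (H N)
  have hcb' : ∀ i, |((p N).coeff i : ℝ)| ≤ ((H N + 2 : ℕ) : ℝ) ^ C := by
    intro i
    exact_mod_cast hcb N i
  obtain ⟨t, ht⟩ : ∃ t : ℝ, t = ((H N + 2 : ℕ) : ℝ) := ⟨_, rfl⟩
  rw [← ht] at h1 h2 h0 ha hcb' ⊢
  rw [pow_zero, mul_one] at h0
  have ht1 : 1 ≤ t := by linarith
  have hl0 : t ^ C₀ + 1 ≤ t ^ (C₀ + 1) := by
    rw [pow_succ]
    have e1 : 1 ≤ t ^ C₀ := one_le_pow₀ ht1
    nlinarith
  have hl2 : |(γ N : ℝ)| ≤ t ^ (C₀ + 1) := by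
    have e1 := abs_add_le ((γ N : ℝ) - al N) (al N)
    rw [sub_add_cancel] at e1
    linarith
  have hl3 : |al N| ≤ t ^ (C₀ + 1) := by linarith
  have h6 := ev_bd (p N) hN.le (one_le_pow₀ ht1) hl2 hl3 hcb'
  rw [hp0 N, sub_zero] at h6
  have h7 : ((eval (γ N) ((p N).map (Int.castRingHom ℚ)) : ℚ) : ℝ) = aeval (γ N : ℝ) (p N) := by
    rw [aeval_def, eval_map]
    have e1 := hom_eval₂ (p N) (Int.castRingHom ℚ) (algebraMap ℚ ℝ) (γ N)
    exact e1
  rw [h7]
  have hr1 : ((r : ℝ) + 1) ≤ t ^ (r + 1) := by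
    have e1 : ((r + 1 : ℕ) : ℝ) ≤ ((2 ^ (r + 1) : ℕ) : ℝ) := by exact_mod_cast Nat.lt_two_pow_self.le
    push_cast at e1
    exact e1.trans (pow_le_pow_left₀ (by norm_num) h2 _)
  have hr2 : (r : ℝ) ≤ t ^ r := by
    have e1 : (r : ℝ) ≤ ((2 ^ r : ℕ) : ℝ) := by exact_mod_cast Nat.lt_two_pow_self.le
    push_cast at e1
    exact e1.trans (pow_le_pow_left₀ (by norm_num) h2 _)
  have h8 : ((r : ℝ) + 1) * (t ^ C * (r * (t ^ (C₀ + 1)) ^ r)) ≤ t ^ C₁ := by
    have e1 : t ^ C₁ = t ^ (r + 1) * (t ^ C * (t ^ r * (t ^ (C₀ + 1)) ^ r)) := by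
      rw [hC₁, ← pow_mul t (C₀ + 1) r, ← pow_add, ← pow_add, ← pow_add]
    rw [e1]
    gcongr
  calc |aeval (γ N : ℝ) (p N)| * t ^ C' ≤ (|(γ N : ℝ) - al N| * t ^ C₁) * t ^ C' := by
        refine mul_le_mul_of_nonneg_right (h6.trans ?_) (by positivity)
        exact mul_le_mul_of_nonneg_left h8 (abs_nonneg _)
    _ = |(γ N : ℝ) - al N| * t ^ (C₁ + C') := by rw [pow_add]; ring
    _ < 1 := h1

end Pool.Agent.H12.SF
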