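import Pool.Agent.H12.SF.Wd
import Pool.Agent.H46.SF.Fam

/-! # [H12 SF TYX] The type of a large point and the root of `p`

`rt_le`: the roots of a monic `p` with coefficients `≤ B` are at most `B + 1` (Cauchy). `typ0`: for a large zero of `G` (any monic irreducible `p` of degree `≥ 3` with `AtInf p G`) there are `K ⊆ ℝ`, isomorphic to `ℚ[X]/p`, with `Ty n K H x y`, and a real root `al` of `p` which generates `K`.
`typ`: for an input, `deg p ≤ n(n+1)` (`sg_poly`) and `Sg K (H^(n(n+1)+2)) al`. `noreal`: no real root: `p` may be replaced by `X^m - 2` with `m > n(n+1)`, so there is no large zero. -/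

namespace Pool.Agent.H12.SF

open Polynomial Pool.Agent.H8.OA Pool.Agent.H8.AF

/-- the field `ℚ[X]/p` -/
abbrev KP (p : ℤ[X]) : Type := AdjoinRoot (p.map (Int.castRingHom ℚ))

theorem finrank_KP {p : ℤ[X]} (hP : p.Monic) (hi : Irreducible (p.map (Int.castRingHom ℚ))) :
    Module.finrank ℚ (KP p) = p.natDegree := by
  rw [(AdjoinRoot.powerBasis hi.ne_zero).finrank, AdjoinRoot.powerBasis_dim, hP.natDegree_map]

theorem rt_le {p : ℤ[X]} (hm : p.Monic) {B : ℕ} (hB : ∀ i, |p.coeff i| ≤ (B : ℤ)) {z : ℂ}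
    (hz : aeval z p = 0) : ‖z‖ ≤ (B : ℝ) + 1 := by
  obtain ⟨q, hq⟩ : ∃ q : ℂ[X], q = p.map (Int.castRingHom ℂ) := ⟨_, rfl⟩
  have hqm : q.Monic := by rw [hq]; exact hm.map _
  have hroot : q.IsRoot z := by
    rw [IsRoot.def, hq, eval_map]
    rw [aeval_def] at hz
    exact hz
  have h1 := IsRoot.norm_lt_cauchyBound hqm.ne_zero hroot
  have h2 : cauchyBound q ≤ (B : NNReal) + 1 := by
    unfold cauchyBound
    rw [hqm.leadingCoeff, nnnorm_one, div_one]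
    gcongr
    refine Finset.sup_le fun i _ => ?_
    rw [hq, coeff_map, eq_intCast]
    rw [← NNReal.coe_le_coe, coe_nnnorm, Complex.norm_intCast]
    have h3 : ((|p.coeff i| : ℤ) : ℝ) ≤ ((B : ℤ) : ℝ) := Int.cast_le.2 (hB i)
    rw [Int.cast_abs] at h3
    push_cast
    push_cast at h3
    exact h3
  have h4 : ‖z‖₊ ≤ (B : NNReal) + 1 := h1.le.trans h2
  exact_mod_cast h4

theorem irr_q {p : ℤ[X]} (hm : p.Monic) (hi : Irreducible p) : Irreducible (p.map (Int.castRingHom ℚ)) :=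
  (hm.irreducible_iff_irreducible_map_fraction_map (K := ℚ)).1 hi

theorem typ0 {n : ℕ} (hn : 3 ≤ n) {p : ℤ[X]} {G : MvPolynomial (Fin 2) ℤ} {H : ℕ} {x y : ℤ} (hm : p.Monic)
    (hi : Irreducible p) (h3 : 3 ≤ p.natDegree) (hG : G.totalDegree ≤ n)
    (hirr : Irreducible (MvPolynomial.map (Int.castRingHom ℚ) G)) (hinf : Pool.Agent.H85.SF.AtInf p G) (hH : 2 ≤ H)
    (hc : ∀ m, |MvPolynomial.coeff m G| ≤ (H : ℤ)) (h0 : MvPolynomial.eval ![x, y] G = 0)
    (hbig : (H : ℤ) ^ cF n < max |x| |y|) : ∃ (K : Subfield ℝ) (al : ℝ), Ty n K H x y ∧ aeval al p = 0 ∧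
      p.natDegree ≤ n * (n + 1) ∧
      ∀ B : ℕ, (∀ i, |p.coeff i| ≤ (B : ℤ)) → Sg K (B + 1) al := by
  classical
  have hiq := irr_q hm hi
  have : Fact (Irreducible (p.map (Int.castRingHom ℚ))) := ⟨hiq⟩
  have hfr := finrank_KP hm hiq
  have : FiniteDimensional ℚ (KP p) := (AdjoinRoot.powerBasis hiq.ne_zero).finite
  have : NumberField (KP p) := NumberField.mk
  have hat : Pool.Agent.H98.SI.AtInf (KP p) G := by
    refine ⟨hirr, fun L _ _ hL X Y hXY => ?_⟩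
    rcases hinf L hL X Y hXY with h | ⟨z, hz⟩
    · exact Or.inl h
    · refine Or.inr ⟨AdjoinRoot.lift (algebraMap ℚ L) z ?_⟩
      rw [eval₂_map]
      rw [aeval_def] at hz
      rw [← hz]
      congr 1
      exact RingHom.ext_int _ _
  obtain ⟨K, ⟨e⟩, hT⟩ := ty_exists n hn (KP p) (by rw [hfr]; exact h3) G H hG hat hH hc x y h0 hbig
  obtain ⟨θ, hθ⟩ : ∃ θ : KP p, θ = AdjoinRoot.root (p.map (Int.castRingHom ℚ)) := ⟨_, rfl⟩
  have hθ0 : eval₂ (Int.castRingHom (KP p)) θ p = 0 := by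
    have h1 := AdjoinRoot.eval₂_root (p.map (Int.castRingHom ℚ))
    rw [eval₂_map, ← hθ] at h1
    rw [← h1]
    congr 1
  have hmv : ∀ (A : Type) [Field A] (f : KP p →+* A), aeval (f θ) p = 0 := by
    intro A _ f
    have h1 := congrArg f hθ0
    rw [map_zero, hom_eval₂, RingHom.ext_int (f.comp (Int.castRingHom (KP p))) (algebraMap ℤ A)] at h1
    rw [aeval_def, h1]
  have hal0 : aeval ((e θ : K) : ℝ) p = 0 := hmv ℝ (K.subtype.comp (e : KP p →+* K))
  have hgen : IntermediateField.adjoin ℚ {(e θ : K)} = ⊤ := by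
    rw [eq_top_iff]
    intro w _
    obtain ⟨v, rfl⟩ := e.surjective w
    obtain ⟨q, hq⟩ := AdjoinRoot.mk_surjective v
    have h1 : v = eval₂ (AdjoinRoot.of (p.map (Int.castRingHom ℚ))) θ q := by
      rw [← hq, hθ, ← AdjoinRoot.aeval_eq, aeval_def]
      rfl
    have h2 : e v = eval₂ (((e : KP p →+* K)).comp (AdjoinRoot.of (p.map (Int.castRingHom ℚ)))) (e θ) q := by
      rw [h1]
      exact hom_eval₂ q (AdjoinRoot.of (p.map (Int.castRingHom ℚ))) (e : KP p →+* K) θ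
    rw [h2, Subsingleton.elim (((e : KP p →+* K)).comp (AdjoinRoot.of (p.map (Int.castRingHom ℚ))))
      (algebraMap ℚ K), eval₂_eq_sum, sum_def]
    refine sum_mem fun i _ => mul_mem ?_ (pow_mem (IntermediateField.mem_adjoin_simple_self ℚ (e θ)) i)
    exact (IntermediateField.adjoin ℚ {(e θ : K)}).algebraMap_mem _
  have hS : ∀ B : ℕ, (∀ i, |p.coeff i| ≤ (B : ℤ)) → Sg K (B + 1) ((e θ : K) : ℝ) := by
    intro B hB
    refine ⟨(e θ).2, ⟨p, hm, ?_⟩, hgen, fun φ => ?_⟩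
    · have h1 := hmv K (e : KP p →+* K)
      rw [aeval_def] at h1
      exact h1
    · have h3 := rt_le hm hB (hmv ℂ (φ.comp (e : KP p →+* K)))
      push_cast
      exact h3
  obtain ⟨B, hB⟩ : ∃ B : ℕ, ∀ i, |p.coeff i| ≤ (B : ℤ) := by
    refine ⟨∑ i ∈ p.support, (p.coeff i).natAbs, fun i => ?_⟩
    by_cases h1 : i ∈ p.support
    · have h2 := Finset.single_le_sum (f := fun i => (p.coeff i).natAbs) (fun _ _ => Nat.zero_le _) h1
      rw [Int.abs_eq_natAbs]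
      exact Int.ofNat_le.2 h2
    · rw [notMem_support_iff.1 h1, abs_zero]
      exact Int.natCast_nonneg _
  refine ⟨K, ((e θ : K) : ℝ), hT, hal0, ?_, hS⟩
  obtain ⟨P, -, -, -, h4, h5, -⟩ := sg_poly n hT (hS B hB)
  have hK : Module.finrank ℚ (KP p) = Module.finrank ℚ K :=
    LinearEquiv.finrank_eq (e.toRatAlgEquiv.toLinearEquiv)
  have hfr' : Module.finrank ℚ K = p.natDegree := by
    rw [← hK, ← hfr]
  rw [← hfr', ← h4]
  exact h5

theorem sg_mono {K : Subfield ℝ} {B B' : ℕ} (h : B ≤ B') {r : ℝ} (hs : Sg K B r) : Sg K B' r := by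
  obtain ⟨h1, h2, h3, h4⟩ := hs
  exact ⟨h1, h2, h3, fun φ => (h4 φ).trans (by exact_mod_cast h)⟩

theorem typ {m n : ℕ} (hn : 3 ≤ n) (hmn : m ≤ n) {p : ℤ[X]} {G : MvPolynomial (Fin 2) ℤ} {H : ℕ} {x y : ℤ}
    (h : Inp m p G H x y) (hbig : (H : ℤ) ^ cF n < max |x| |y|) : ∃ (K : Subfield ℝ) (al : ℝ), Ty n K H x y ∧
      aeval al p = 0 ∧ p.natDegree ≤ n * (n + 1) ∧ Sg K (H ^ (n * (n + 1) + 2)) al := by
  obtain ⟨K, al, h1, h2, h3, h4⟩ := typ0 hn h.pm h.pi h.p3 (h.deg.trans hmn) h.irr h.inf h.h2 h.cf h.z hbig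
  refine ⟨K, al, h1, h2, h3, sg_mono ?_ (h4 (2 ^ p.natDegree * H) ?_)⟩
  · have h5 := h.h2
    have h6 : 2 ^ p.natDegree ≤ H ^ (n * (n + 1)) :=
      (Nat.pow_le_pow_left h5 _).trans (Nat.pow_le_pow_right (by omega) h3)
    have h7 : 1 ≤ H ^ (n * (n + 1)) := Nat.one_le_pow _ _ (by omega)
    have h8 : H ^ (n * (n + 1) + 2) = H ^ (n * (n + 1)) * H * H := by rw [pow_succ, pow_succ]
    have h9 : 2 ^ p.natDegree * H ≤ H ^ (n * (n + 1)) * H := Nat.mul_le_mul_right _ h6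
    have h10 : 1 ≤ H ^ (n * (n + 1)) * H := Nat.mul_pos (by omega) (by omega)
    rw [h8]
    nlinarith
  · intro i
    have h5 := h.pc i
    push_cast
    exact h5

/-- no real root: no large point -/
theorem noreal (n : ℕ) : ∃ N₀ : ℕ, ∀ (p : Polynomial ℤ) (G : MvPolynomial (Fin 2) ℤ) (H : ℕ) (x y : ℤ),
    (∀ α : ℝ, Polynomial.aeval α p ≠ 0) → G.totalDegree ≤ n → Irreducible (MvPolynomial.map (Int.castRingHom ℚ) G) →
    Pool.Agent.H85.SF.AtInf p G → 2 ≤ H → (∀ m, |MvPolynomial.coeff m G| ≤ (H : ℤ)) →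
    MvPolynomial.eval ![x, y] G = 0 → max |x| |y| ≤ (H : ℤ) ^ N₀ := by
  obtain ⟨n', hn'⟩ : ∃ n', n' = max n 3 := ⟨_, rfl⟩
  have hn3 : 3 ≤ n' := by rw [hn']; exact le_max_right _ _
  have hnn : n ≤ n' := by rw [hn']; exact le_max_left _ _
  refine ⟨cF n', fun p G H x y hp hG hirr hinf hH hc h0 => ?_⟩
  by_contra hcon
  push Not at hcon
  obtain ⟨m, hm⟩ : ∃ m, m = n' * (n' + 1) + 3 := ⟨_, rfl⟩
  have hq : Pool.Agent.H85.SF.AtInf (Pool.Agent.H46.SF.fam 3 m) G := by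
    intro L _ _ hL X Y hXY
    rcases hinf L hL X Y hXY with h | ⟨z, hz⟩
    · exact Or.inl h
    · exfalso
      obtain ⟨f⟩ := hL
      refine hp (f z) ?_
      have h1 := congrArg f hz
      rw [map_zero, aeval_def, hom_eval₂, RingHom.ext_int (f.comp (algebraMap ℤ L)) (algebraMap ℤ ℝ)] at h1
      rw [aeval_def, h1]
  obtain ⟨K, al, -, -, h3, -⟩ := typ0 hn3 (Pool.Agent.H46.SF.fam_monic 3 (r := m) (by omega))
    (Pool.Agent.H46.SF.fam_irreducible (r := m) (by omega) le_rfl)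
    (by rw [Pool.Agent.H46.SF.fam_natDegree 3 (r := m) (by omega)]; omega) (hG.trans hnn) hirr hq hH hc h0 hcon
  rw [Pool.Agent.H46.SF.fam_natDegree 3 (r := m) (by omega)] at h3
  omega

end Pool.Agent.H12.SF
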