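import Pool.Agent.H8.OA.Isu
import Pool.Agent.H8.OA.Ng1
import Pool.Agent.H8.OA.Ng2
import Pool.Agent.H8.OA.Sq1
import Pool.Agent.H8.OA.LDa
import Pool.Agent.H85.SF.Def

/-! # [H12 SF WD] THEOREM SF (MP_821da1_nt), chapter [A]: the input and the world (definitions)

`Inp n p G H x y`: one irreducible curve of degree `≤ n`, coefficients `≤ H`, with the integer zero `(x,y)`; `p` monic irreducible of degree `≥ 3`, coefficients `≤ 2^(deg p) H`, a root at every real point at infinity (`AtInf`, H85/SF/Def).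
`xl c H x y`: the function `x + c y` of `L = LL H x y = (Q0 H)(x,y) ⊆ QS`. `World ..`: everything the frame gives for a sequence of inputs with `(H N)^(N + N₀) < max |x N| |y N|`. -/

namespace Pool.Agent.H12.SF

open Filter IntermediateField Pool.Agent.H82.NS Pool.Agent.H12.ON Pool.Agent.H12.OG Pool.Agent.H8.OA

/-- the input: one curve with one zero -/
structure Inp (n : ℕ) (p : Polynomial ℤ) (G : MvPolynomial (Fin 2) ℤ) (H : ℕ) (x y : ℤ) : Prop where
  deg : G.totalDegree ≤ n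
  irr : Irreducible (MvPolynomial.map (Int.castRingHom ℚ) G)
  inf : Pool.Agent.H85.SF.AtInf p G
  h2 : 2 ≤ H
  cf : ∀ m, |MvPolynomial.coeff m G| ≤ (H : ℤ)
  z : MvPolynomial.eval ![x, y] G = 0
  pm : p.Monic
  pi : Irreducible p
  p3 : 3 ≤ p.natDegree
  pc : ∀ i, |p.coeff i| ≤ 2 ^ p.natDegree * (H : ℤ)

theorem xl_mem (c : ℕ) (H : ℕ → ℕ) (x y : ℕ → ℤ) : qz (fun N => x N + c * y N) ∈ LL H x y := by
  have h1 : (qz (fun N => x N + c * y N) : QS) = qz x + (c : QS) * qz y := by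
    have h2 : (c : QS) = cl (fun _ => (c : ℚ)) := by
      induction c with
      | zero => rw [Nat.cast_zero, cl_zero]; simp
      | succ c ih => rw [Nat.cast_succ, ih, cl_one, cl_add]; simp
    unfold qz
    rw [h2, cl_mul, cl_add]
    congr 1
    funext N
    push_cast
    rfl
  rw [h1]
  refine (LL H x y).add_mem (x_mem H x y) ((LL H x y).mul_mem ?_ (y_mem H x y))
  exact _root_.natCast_mem _ c

/-- the function `x + c y` -/
noncomputable def xl (c : ℕ) (H : ℕ → ℕ) (x y : ℕ → ℤ) : LL H x y :=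
  ⟨qz (fun N => x N + c * y N), xl_mem c H x y⟩

/-- the world: `k = Q0 H`, `L = LL H x y ⊆ QS`, `O = OO H x y = V0 H ∩ L`, `t = xl c H x y = x + c y`; `d` is the degree of the curve -/
structure World (n r d : ℕ) (p : ℕ → Polynomial ℤ) (G : ℕ → MvPolynomial (Fin 2) ℤ) (H : ℕ → ℕ) (x y : ℕ → ℤ)
    (Gh : MvPolynomial (Fin 2) (Q0 H)) (P : Polynomial (Q0 H)) (al : ℕ → ℝ) (γ : ℕ → ℚ) (g : LL H x y) (c : ℕ) :
    Prop where
  -- the curve
  d1 : 1 ≤ d
  dn : d ≤ n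
  rd : r ≤ d
  nr : ∀ᶠ N in UU, (p N).natDegree = r
  gd : ∀ᶠ N in UU, (G N).totalDegree = d
  gt : Gh.totalDegree = d
  gu : IsU H d G Gh
  gz : MvPolynomial.aeval ![qz x, qz y] Gh = 0
  gS : Irreducible (MvPolynomial.map (algebraMap (Q0 H) QS) Gh)
  gi : Irreducible Gh
  -- the coordinate `t`
  cd : c ≤ d
  ct : ∑ i ∈ Finset.range (d + 1), Gh.coeff (Finsupp.single 0 i + Finsupp.single 1 (d - i)) * (-(c : Q0 H)) ^ i ≠ 0
  ff : FF (Q0 H) (xl c H x y)
  fin : Module.finrank (Q0 H)⟮xl c H x y⟯ (LL H x y) ≤ d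
  ix : IsInt (Q0 H) (xl c H x y) (⟨qz x, x_mem H x y⟩ : LL H x y)
  iy : IsInt (Q0 H) (xl c H x y) (⟨qz y, y_mem H x y⟩ : LL H x y)
  xt : (⟨qz x, x_mem H x y⟩ : LL H x y) / xl c H x y ∈ OO H x y
  yt : (⟨qz y, y_mem H x y⟩ : LL H x y) / xl c H x y ∈ OO H x y
  big : ∀ C : ℕ, ∀ᶠ N in UU, ((H N + 2 : ℕ) : ℤ) ^ C ≤ |x N + c * y N|
  -- the place at infinity
  inf : Inf (Q0 H) (xl c H x y) (OO H x y)
  uni : ∀ W : ValuationSubring (LL H x y), Inf (Q0 H) (xl c H x y) W → W = OO H x y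
  rc : RelCl (Q0 H) (LL H x y)
  -- the field at infinity
  pm : P.Monic
  pd : P.natDegree = r
  pc : ∀ i, ((P.coeff i : Q0 H) : QS) = cl (fun N => ((p N).coeff i : ℚ))
  pS : Irreducible (P.map (algebraMap (Q0 H) QS))
  pi : Irreducible P
  rt : ∀ N, Polynomial.aeval (al N) (p N) = 0
  gg : (g : QS) = cl γ
  gO : g ∈ OO H x y
  gP : Polynomial.aeval g P ∈ (OO H x y).nonunits
  ap : ∀ C : ℕ, ∀ᶠ N in UU, |(γ N : ℝ) - al N| * ((H N + 2 : ℕ) : ℝ) ^ C < 1

end Pool.Agent.H12.SF
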