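import Pool.Agent.H12.SF.Wd
import Pool.Agent.H12.SF.Cor
import Pool.Agent.H12.ON.Zer

/-! # [H12 SF WEA] Auxiliary lemmas for the world

`ult_fin`: a bounded sequence of natural numbers is constant on the ultrafilter. `tbg`: a sequence of typed large points is beyond all powers of `H` (`pr_bg` of H8/OA/Pair). `v0_bd`, `v0_of`: integer sequences in `V0 H`. `isint_mem`: integral elements over `k[t]`, `t ∈ O`, are in `O`.
`xl_not`: `t = x + c y ∉ V0 H` if `x`, `y` are integral over `k[t]` and the points are large. -/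

namespace Pool.Agent.H12.SF

open Filter IntermediateField Pool.Agent.H82.NS Pool.Agent.H12.ON Pool.Agent.H12.OG Pool.Agent.H8.OA

theorem ult_fin {f : ℕ → ℕ} {M : ℕ} (h : ∀ N, f N ≤ M) : ∃ r, r ≤ M ∧ ∀ᶠ N in UU, f N = r := by
  have h2 : ∀ᶠ N in UU, ∃ r, r ∈ ((Finset.range (M + 1) : Finset ℕ) : Set ℕ) ∧ f N = r :=
    Filter.Eventually.of_forall fun N => ⟨f N, Finset.mem_coe.2 (Finset.mem_range.2 (Nat.lt_succ_of_le (h N))), rfl⟩
  rw [Ultrafilter.eventually_exists_mem_iff (Finset.finite_toSet _)] at h2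
  obtain ⟨r, hr, h3⟩ := h2
  exact ⟨r, Nat.lt_succ_iff.1 (Finset.mem_range.1 (Finset.mem_coe.1 hr)), h3⟩

theorem tbg {n : ℕ} (hn : 3 ≤ n) {K : ℕ → Subfield ℝ} {H : ℕ → ℕ} {x y : ℕ → ℤ}
    (hT : ∀ N, Ty n (K N) (H N) (x N) (y N)) (hH2 : ∀ N, 2 ≤ H N) (hb : ∀ N, (H N : ℤ) ^ N < max |x N| |y N|) :
    Bg H (uu n x y) := by
  intro C
  filter_upwards [(eventually_ge_atTop (2 * C * (2 * n + 3))).filter_mono Nat.hyperfilter_le_atTop] with N hN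
  have hH : (2 : ℤ) ≤ (H N : ℤ) := by exact_mod_cast hH2 N
  have h1 : ((H N + 2 : ℕ) : ℤ) ^ C ≤ (H N : ℤ) ^ (2 * C) := by
    rw [pow_mul]
    refine pow_le_pow_left₀ (by positivity) ?_ C
    push_cast
    nlinarith
  refine h1.trans ?_
  by_contra hcon
  push Not at hcon
  have h2 := (ty_size n hn (hT N)).1
  have h3 : |y N + x N ^ (n + 1)| ^ (2 * n + 3) ≤ ((H N : ℤ) ^ (2 * C)) ^ (2 * n + 3) :=
    pow_le_pow_left₀ (abs_nonneg _) hcon.le _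
  rw [← pow_mul] at h3
  have h4 : (H N : ℤ) ^ (2 * C * (2 * n + 3)) ≤ (H N : ℤ) ^ N := pow_le_pow_right₀ (by linarith) hN
  have h5 := hb N
  linarith

theorem v0_bd {H : ℕ → ℕ} {x : ℕ → ℤ} (h : qz x ∈ V0 H) :
    ∃ C : ℕ, ∀ᶠ N in UU, |x N| ≤ ((H N + 2 : ℕ) : ℤ) ^ C := by
  obtain ⟨r, ⟨f, ⟨C, hC⟩, rfl⟩, hr⟩ := h
  refine ⟨C, ?_⟩
  have h2 := cl_le.1 ((le_abs_self _).trans hr)
  have h3 := (neg_le_abs _).trans hr
  have h4 : -(qz x) = cl (fun N => -(x N : ℚ)) := rfl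
  rw [h4] at h3
  have h3 := cl_le.1 h3
  filter_upwards [h2, h3] with N h5 h6
  have h7 : |(x N : ℚ)| ≤ f N := abs_le'.2 ⟨h5, h6⟩
  have h8 : f N ≤ ((H N + 2 : ℕ) : ℚ) ^ C := by
    have e1 : (1 : ℚ) ≤ ((f N).den : ℚ) := by exact_mod_cast (f N).den_pos
    have e2 : (f N : ℚ) * ((f N).den : ℚ) = ((f N).num : ℚ) := Rat.mul_den_eq_num (f N)
    have e3 : ((f N).num : ℚ) ≤ ((f N).num.natAbs : ℚ) := by
      rw [Nat.cast_natAbs]
      exact_mod_cast le_abs_self _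
    have e4 : ((f N).num.natAbs : ℚ) ≤ ((H N + 2 : ℕ) : ℚ) ^ C := by exact_mod_cast (hC N).1
    have e5 : 0 ≤ f N := (abs_nonneg _).trans h7
    calc f N ≤ f N * ((f N).den : ℚ) := le_mul_of_one_le_right e5 e1
      _ ≤ _ := by rw [e2]; exact e3.trans e4
  have h9 := h7.trans h8
  exact_mod_cast h9

theorem v0_of {H : ℕ → ℕ} {x : ℕ → ℤ} {C : ℕ} (h : ∀ᶠ N in UU, |x N| ≤ ((H N + 2 : ℕ) : ℤ) ^ C) : qz x ∈ V0 H := by
  refine ⟨cl (fun N => ((H N + 2 : ℕ) : ℚ) ^ C), ⟨_, ⟨C, fun N => ?_⟩, rfl⟩, ?_⟩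
  · have e1 : (((H N + 2 : ℕ) : ℚ) ^ C) = (((H N + 2) ^ C : ℕ) : ℚ) := by push_cast; rfl
    rw [e1, Rat.num_natCast, Rat.den_natCast, Int.natAbs_natCast]
    exact ⟨le_rfl, Nat.one_le_pow _ _ (by omega)⟩
  · rw [abs_le']
    have h4 : -(qz x) = cl (fun N => -(x N : ℚ)) := rfl
    rw [h4]
    unfold qz
    constructor
    · refine cl_le.2 ?_
      filter_upwards [h] with N hN
      have h5 : (x N : ℤ) ≤ ((H N + 2 : ℕ) : ℤ) ^ C := (le_abs_self _).trans hN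
      exact_mod_cast h5
    · refine cl_le.2 ?_
      filter_upwards [h] with N hN
      have h5 : -(x N : ℤ) ≤ ((H N + 2 : ℕ) : ℤ) ^ C := (neg_le_abs _).trans hN
      exact_mod_cast h5

theorem isint_mem {k L : Type} [Field k] [Field L] [Algebra k L] {O : ValuationSubring L} (hO : Ov k O) {t z : L}
    (ht : t ∈ O) (h : IsInt k t z) : z ∈ O := by
  obtain ⟨q, hq, hq0⟩ := h
  have hm : ∀ w : Algebra.adjoin k {t}, (w : L) ∈ O := by
    rintro ⟨w, hw⟩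
    refine Algebra.adjoin_induction (p := fun w _ => w ∈ O) ?_ ?_ ?_ ?_ hw
    · rintro w (rfl : w = t)
      exact ht
    · exact hO
    · intro a b _ _ ha hb
      exact O.add_mem _ _ ha hb
    · intro a b _ _ ha hb
      exact O.mul_mem _ _ ha hb
  obtain ⟨ι, hι⟩ : ∃ ι : Algebra.adjoin k {t} →+* O, ∀ w, ((ι w : O) : L) = w :=
    ⟨(Algebra.adjoin k {t}).toSubring.subtype.codRestrict O.toSubring hm, fun w => rfl⟩
  have hint : IsIntegral O z := by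
    refine ⟨q.map ι, hq.map _, ?_⟩
    rw [Polynomial.eval₂_map, ← hq0]
    congr 1
    exact RingHom.ext fun w => hι w
  obtain ⟨w, hw⟩ := (IsIntegrallyClosed.isIntegral_iff (R := O) (K := L)).1 hint
  rw [← hw]
  exact w.2

theorem ov_oo (H : ℕ → ℕ) (x y : ℕ → ℤ) : Ov (Q0 H) (OO H x y) := by
  intro e
  unfold OO
  rw [ValuationSubring.mem_comap]
  rcases abs_choice (e : QS) with h | h
  · exact ⟨(e : QS), e.2, le_of_eq h⟩
  · exact ⟨-(e : QS), (Q0 H).neg_mem e.2, le_of_eq h⟩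

theorem xl_not {H : ℕ → ℕ} {x y : ℕ → ℤ} {c : ℕ} (hH2 : ∀ N, 2 ≤ H N) (hb : ∀ N, (H N : ℤ) ^ N < max |x N| |y N|)
    (hx : IsInt (Q0 H) (xl c H x y) (⟨qz x, x_mem H x y⟩ : LL H x y))
    (hy : IsInt (Q0 H) (xl c H x y) (⟨qz y, y_mem H x y⟩ : LL H x y)) : xl c H x y ∉ OO H x y := by
  intro ht
  have h1 := isint_mem (ov_oo H x y) ht hx
  have h2 := isint_mem (ov_oo H x y) ht hy
  obtain ⟨C₁, h3⟩ := v0_bd (H := H) (x := x) h1
  obtain ⟨C₂, h4⟩ := v0_bd (H := H) (x := y) h2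
  have h5 := (eventually_ge_atTop (2 * (C₁ + C₂))).filter_mono Nat.hyperfilter_le_atTop
  obtain ⟨N, h6, h7, h8⟩ := (h3.and (h4.and h5)).exists
  have hH : (2 : ℤ) ≤ (H N : ℤ) := by exact_mod_cast hH2 N
  have h9 : ((H N + 2 : ℕ) : ℤ) ^ (C₁ + C₂) ≤ (H N : ℤ) ^ N := by
    calc ((H N + 2 : ℕ) : ℤ) ^ (C₁ + C₂) ≤ ((H N : ℤ) ^ 2) ^ (C₁ + C₂) := by
          refine pow_le_pow_left₀ (by positivity) ?_ _
          push_cast
          nlinarith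
      _ = (H N : ℤ) ^ (2 * (C₁ + C₂)) := by rw [← pow_mul]
      _ ≤ (H N : ℤ) ^ N := pow_le_pow_right₀ (by linarith) h8
  have h10 : ∀ C, C ≤ C₁ + C₂ → ((H N + 2 : ℕ) : ℤ) ^ C ≤ ((H N + 2 : ℕ) : ℤ) ^ (C₁ + C₂) := fun C hC =>
    pow_le_pow_right₀ (by push_cast; linarith) hC
  have h11 := hb N
  have h12 : max |x N| |y N| ≤ (H N : ℤ) ^ N :=
    max_le (h6.trans ((h10 C₁ (by omega)).trans h9)) (h7.trans ((h10 C₂ (by omega)).trans h9))
  linarith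

theorem xl_big {H : ℕ → ℕ} {x y : ℕ → ℤ} {c : ℕ} (h : xl c H x y ∉ OO H x y) (C : ℕ) :
    ∀ᶠ N in UU, ((H N + 2 : ℕ) : ℤ) ^ C ≤ |x N + c * y N| := by
  by_contra hcon
  have h1 : ∀ᶠ N in UU, ¬ ((H N + 2 : ℕ) : ℤ) ^ C ≤ |x N + c * y N| := Ultrafilter.eventually_not.2 hcon
  refine h (v0_of (H := H) (x := fun N => x N + c * y N) (C := C) ?_)
  filter_upwards [h1] with N hN
  exact (not_le.1 hN).le

end Pool.Agent.H12.SF
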