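import Pool.Agent.H12.SF.Wea
import Pool.Agent.H8.OA.Isu

/-! # [H12 SF WEG] The class of the curves

`weg`: `G N` of degree `d` for almost all `N`, coefficients `≤ H N`, irreducible over `ℚ`. `Gh` over `Q0 H` with the classes as coefficients, of degree `d`, irreducible over `QS` and over `Q0 H`, zero at `(qz x, qz y)`. -/

namespace Pool.Agent.H12.SF

open Filter MvPolynomial Pool.Agent.H82.NS Pool.Agent.H12.ON Pool.Agent.H8.OA

private theorem td_le (G : MvPolynomial (Fin 2) ℤ) :
    (map (Int.castRingHom ℚ) G).totalDegree ≤ G.totalDegree := by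
  unfold totalDegree
  exact Finset.sup_mono (support_map_subset _ _)

private theorem weg_th {H : ℕ → ℕ} {n : ℕ} {F : ℕ → MvPolynomial (Fin 2) ℤ} {Fh : MvPolynomial (Fin 2) (Q0 H)}
    (hF : ∀ᶠ N in UU, (F N).totalDegree ≤ n) (hU : IsU H n F Fh) :
    Th ℚ (map (algebraMap (Q0 H) QS) Fh) = cl (fun N => map (Int.castRingHom ℚ) (F N)) := by
  classical
  obtain ⟨-, hc⟩ := hU
  obtain ⟨F', hF'⟩ : ∃ F' : ℕ → MvPolynomial (Fin 2) ℤ, ∀ N, F' N = if (F N).totalDegree ≤ n then F N else 0 :=
    ⟨_, fun N => rfl⟩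
  have he : ∀ᶠ N in UU, F' N = F N := by
    filter_upwards [hF] with N hN
    rw [hF' N, if_pos hN]
  have h1 : Th ℚ (map (algebraMap (Q0 H) QS) Fh) = cl (fun N => map (Int.castRingHom ℚ) (F' N)) := by
    refine th_of (n := n) (fun N => ?_) fun m => ?_
    · refine (td_le (F' N)).trans ?_
      rw [hF' N]
      split_ifs with h
      · exact h
      · rw [totalDegree_zero]
        exact Nat.zero_le _
    · rw [coeff_map]
      have h2 : algebraMap (Q0 H) QS (Fh.coeff m) = ((Fh.coeff m : Q0 H) : QS) := rfl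
      rw [h2, hc m, cl_eq]
      filter_upwards [he] with N hN
      rw [coeff_map, hN]
      rfl
  rw [h1, cl_eq]
  exact he.mono fun N hN => by rw [hN]

theorem weg {H : ℕ → ℕ} {G : ℕ → MvPolynomial (Fin 2) ℤ} {d n : ℕ} (hn : ∀ N, (G N).totalDegree ≤ n)
    (hd : ∀ᶠ N in UU, (G N).totalDegree = d) (hc : ∀ N m, |(G N).coeff m| ≤ (H N : ℤ))
    (hi : ∀ N, Irreducible (map (Int.castRingHom ℚ) (G N))) :
    ∃ Gh : MvPolynomial (Fin 2) (Q0 H), IsU H d G Gh ∧ Gh.totalDegree = d ∧
      Irreducible (map (algebraMap (Q0 H) QS) Gh) ∧ Irreducible Gh ∧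
      ∀ x y : ℕ → ℤ, (∀ N, eval ![x N, y N] (G N) = 0) → aeval ![qz x, qz y] Gh = 0 := by
  classical
  have hSb : Sb H G := by
    refine ⟨n + 1, Filter.Eventually.of_forall fun N => ⟨(hn N).trans (by omega), fun m => (hc N m).trans ?_⟩⟩
    have h1 : H N ≤ (H N + 2) ^ (n + 1) := by
      calc H N ≤ H N + 2 := by omega
        _ ≤ (H N + 2) ^ (n + 1) := Nat.le_self_pow (by omega) _
    exact_mod_cast h1
  obtain ⟨m, Gh, hU, hm⟩ := isu_of hSb
  -- the degree
  have hle : Gh.totalDegree ≤ d := by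
    unfold totalDegree
    refine Finset.sup_le fun s hs => ?_
    by_contra hcon
    push Not at hcon
    have h1 : (Gh.coeff s : Q0 H) = 0 := by
      apply Subtype.ext
      rw [hU.2 s]
      change _ = (0 : QS)
      rw [cl_zero, cl_eq]
      filter_upwards [hd] with N hN
      have h2 : (G N).coeff s = 0 := by
        by_contra hne
        have h3 := le_totalDegree (mem_support_iff.2 hne)
        rw [hN] at h3
        omega
      rw [h2, Int.cast_zero]
    exact (mem_support_iff.1 hs) h1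
  have hge : d ≤ Gh.totalDegree := by
    by_contra hcon
    push Not at hcon
    have h1 : ∀ i ∈ Finset.range (d + 1), ∀ᶠ N in UU, (G N).coeff (mij i (d - i)) = 0 := by
      intro i hi
      rw [Finset.mem_range] at hi
      have h2 : Gh.coeff (mij i (d - i)) = 0 := by
        by_contra hne
        have h3 := le_totalDegree (mem_support_iff.2 hne)
        rw [Finsupp.sum_fintype _ _ (fun _ => rfl), Fin.sum_univ_two, mij_zero, mij_one] at h3
        omega
      have h3 := hU.2 (mij i (d - i))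
      rw [h2] at h3
      have h4 : (cl (fun N => (((G N).coeff (mij i (d - i)) : ℤ) : ℚ)) : QS) = 0 := h3.symm
      rw [cl_zero, cl_eq] at h4
      filter_upwards [h4] with N hN
      exact_mod_cast hN
    have h2 : ∀ᶠ N in UU, ∀ i ∈ Finset.range (d + 1), (G N).coeff (mij i (d - i)) = 0 :=
      (Filter.eventually_all_finset _).2 h1
    obtain ⟨N, h3, h4⟩ := (h2.and hd).exists
    have hG0 : G N ≠ 0 := by
      intro h
      have h5 := (hi N).ne_zero
      rw [h, map_zero] at h5
      exact h5 rfl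
    have hne : (G N).support.Nonempty := by
      rw [Finset.nonempty_iff_ne_empty]
      intro h
      exact hG0 (support_eq_empty.1 h)
    obtain ⟨s, hs, hsd⟩ := Finset.exists_mem_eq_sup (G N).support hne (fun s : Fin 2 →₀ ℕ => s.sum fun _ e => e)
    have hsd' : s 0 + s 1 = d := by
      have h5 : (G N).totalDegree = s.sum fun _ e => e := hsd
      rw [← h4, h5, Finsupp.sum_fintype _ _ (fun _ => rfl), Fin.sum_univ_two]
    have h5 := h3 (s 0) (Finset.mem_range.2 (by omega))
    have h6 : d - s 0 = s 1 := by omega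
    rw [h6, mij_eta] at h5
    exact (mem_support_iff.1 hs) h5
  have hUd : IsU H d G Gh := ⟨hle, hU.2⟩
  have hdd : ∀ᶠ N in UU, (G N).totalDegree ≤ d := hd.mono fun N hN => hN.le
  refine ⟨Gh, hUd, le_antisymm hle hge, ?_, isu_irr hdd hUd (Filter.Eventually.of_forall hi), fun x y h0 => ?_⟩
  · have h2 : Th ℚ (map (algebraMap (Q0 H) QS) Gh) = cl (fun N => map (Int.castRingHom ℚ) (G N)) :=
      weg_th hdd hUd
    exact tir h2 hi
  · rw [isu_eval hdd hUd]
    unfold qz
    rw [cl_zero, cl_eq]
    refine Filter.Eventually.of_forall fun N => ?_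
    show ((eval ![x N, y N] (G N) : ℤ) : ℚ) = 0
    rw [h0 N, Int.cast_zero]

end Pool.Agent.H12.SF
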