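import Pool.Agent.H12.SF.Weg
import Pool.Agent.H12.SF.Tyx
import Pool.Agent.H12.SF.Ppc
import Pool.Agent.H12.GN.Pls

/-! # [H12 SF WEX] Chapter [A]: the world of a sequence of large points

`wex`: for every `N` `typ` gives the type `K N ⊆ ℝ` and the root `al N` of `p N`; `Sq`, `Bg` (`tbg`), `ng`: `γ`, `g`. `ppc`: `P`. `weg`: `Gh`. `cor_ex`, `cor_x`, ...: the coordinate `t = x + c y`. `uni`: the place. `r ≤ d`: `unif`, `kbs`. -/

namespace Pool.Agent.H12.SF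

open Filter IntermediateField Pool.Agent.H82.NS Pool.Agent.H12.ON Pool.Agent.H12.OG Pool.Agent.H8.OA

private theorem wx_nr {H : ℕ → ℕ} {u : ℕ → ℤ} {la : ℕ → ℝ} {γ : ℕ → ℚ} (hb : Bg H u) (h : Nr H u la γ) (C' : ℕ) :
    ∀ᶠ N in UU, |(γ N : ℝ) - la N| * ((H N + 2 : ℕ) : ℝ) ^ C' < 1 := by
  obtain ⟨C, hC⟩ := h
  filter_upwards [hC, hb (C + C' + 1)] with N h1 h3
  have h3' : ((H N + 2 : ℕ) : ℝ) ^ (C + C' + 1) ≤ |(u N : ℝ)| := by exact_mod_cast h3
  have h2 := h2le (H N)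
  obtain ⟨t, ht⟩ : ∃ t : ℝ, t = ((H N + 2 : ℕ) : ℝ) := ⟨_, rfl⟩
  rw [← ht] at h1 h2 h3' ⊢
  by_contra hc
  rw [not_lt] at hc
  have h4 : |(u N : ℝ)| ≤ t ^ (C + C') := by
    calc |(u N : ℝ)| ≤ (|(γ N : ℝ) - la N| * t ^ C') * |(u N : ℝ)| := le_mul_of_one_le_left (abs_nonneg _) hc
      _ = (|(γ N : ℝ) - la N| * |(u N : ℝ)|) * t ^ C' := by ring
      _ ≤ t ^ C * t ^ C' := mul_le_mul_of_nonneg_right h1 (by positivity)
      _ = t ^ (C + C') := (pow_add _ _ _).symm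
  have h5 : t ^ (C + C') < t ^ (C + C' + 1) := pow_lt_pow_right₀ (by linarith) (Nat.lt_succ_self _)
  linarith

private theorem wx_top (H : ℕ → ℕ) (x y : ℕ → ℤ) : IntermediateField.adjoin (Q0 H)
    {(⟨qz x, x_mem H x y⟩ : LL H x y), (⟨qz y, y_mem H x y⟩ : LL H x y)} = ⊤ := by
  rw [eq_top_iff]
  intro z _
  have h1 : (IntermediateField.adjoin (Q0 H)
      {(⟨qz x, x_mem H x y⟩ : LL H x y), (⟨qz y, y_mem H x y⟩ : LL H x y)}).map (LL H x y).val = LL H x y := by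
    rw [IntermediateField.adjoin_map, Set.image_pair]
    rfl
  have h2 : (z : QS) ∈ (IntermediateField.adjoin (Q0 H)
      {(⟨qz x, x_mem H x y⟩ : LL H x y), (⟨qz y, y_mem H x y⟩ : LL H x y)}).map (LL H x y).val := by
    rw [h1]
    exact z.2
  obtain ⟨w, hw, hwz⟩ := h2
  have h3 : w = z := Subtype.ext hwz
  rw [h3] at hw
  exact hw

theorem xl_eq (c : ℕ) (H : ℕ → ℕ) (x y : ℕ → ℤ) : xl c H x y = (⟨qz x, x_mem H x y⟩ : LL H x y) +
    algebraMap (Q0 H) (LL H x y) (c : Q0 H) * (⟨qz y, y_mem H x y⟩ : LL H x y) := by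
  rw [map_natCast]
  apply Subtype.ext
  have h2 : (c : QS) = cl (fun _ => (c : ℚ)) := by
    induction c with
    | zero => rw [Nat.cast_zero, cl_zero]; simp
    | succ c ih => rw [Nat.cast_succ, ih, cl_one, cl_add]; simp
  have h1 : (qz (fun N => x N + c * y N) : QS) = qz x + (c : QS) * qz y := by
    unfold qz
    rw [h2, cl_mul, cl_add]
    congr 1
    funext N
    push_cast
    rfl
  exact h1

theorem wex (n : ℕ) : ∃ N₀ : ℕ, ∀ {p : ℕ → Polynomial ℤ} {G : ℕ → MvPolynomial (Fin 2) ℤ} {H : ℕ → ℕ}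
    {x y : ℕ → ℤ}, (∀ N, Inp n (p N) (G N) (H N) (x N) (y N)) →
    (∀ N, (H N : ℤ) ^ (N + N₀) < max |x N| |y N|) →
    ∃ (r d : ℕ) (Gh : MvPolynomial (Fin 2) (Q0 H)) (P : Polynomial (Q0 H)) (al : ℕ → ℝ) (γ : ℕ → ℚ) (g : LL H x y)
      (c : ℕ), World n r d p G H x y Gh P al γ g c := by
  obtain ⟨n', hn'⟩ : ∃ n', n' = max n 3 := ⟨_, rfl⟩
  have hn3 : 3 ≤ n' := by rw [hn']; exact le_max_right _ _
  have hnn : n ≤ n' := by rw [hn']; exact le_max_left _ _
  refine ⟨Pool.Agent.H8.AF.cF n', fun {p G H x y} h hb => ?_⟩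
  have hH2 : ∀ N, 2 ≤ H N := fun N => (h N).h2
  have hHz : ∀ N, (1 : ℤ) ≤ (H N : ℤ) := fun N => by exact_mod_cast (by have := hH2 N; omega : 1 ≤ H N)
  have hb1 : ∀ N, (H N : ℤ) ^ Pool.Agent.H8.AF.cF n' < max |x N| |y N| := fun N =>
    (pow_le_pow_right₀ (hHz N) (by omega)).trans_lt (hb N)
  have hb2 : ∀ N, (H N : ℤ) ^ N < max |x N| |y N| := fun N =>
    (pow_le_pow_right₀ (hHz N) (by omega)).trans_lt (hb N)
  choose K al hT hal hdeg hSg using fun N => typ hn3 hnn (h N) (hb1 N)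
  have hs : Sq n' K H x y := ⟨hn3, hH2, hT⟩
  have hB : Bg H (uu n' x y) := tbg hn3 hT hH2 hb2
  have hla : Sgs K H al := ⟨n' * (n' + 1) + 2, hSg⟩
  obtain ⟨γ, hγm, hγ⟩ := ng hs hB (H' := H) (fun _ => le_rfl) hla
  have hap := wx_nr hB hγ
  obtain ⟨r, -, hr⟩ := ult_fin hdeg
  obtain ⟨d, hdn, hd⟩ := ult_fin fun N => (h N).deg
  have hr3 : 3 ≤ r := by
    obtain ⟨N, hN⟩ := hr.exists
    rw [← hN]
    exact (h N).p3
  obtain ⟨Gh, hU, hGd, hGS, hGi, hGz⟩ := weg (fun N => (h N).deg) hd (fun N => (h N).cf) (fun N => (h N).irr)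
  have hgz := hGz x y fun N => (h N).z
  -- the polynomial
  have hcb : ∀ N i, |(p N).coeff i| ≤ ((H N + 2 : ℕ) : ℤ) ^ (n' * (n' + 1) + 1) := by
    intro N i
    refine ((h N).pc i).trans ?_
    have h1 : 2 ^ (p N).natDegree * H N ≤ (H N + 2) ^ (n' * (n' + 1) + 1) := by
      rw [pow_succ]
      refine Nat.mul_le_mul ?_ (by omega)
      exact (Nat.pow_le_pow_left (by omega) _).trans (Nat.pow_le_pow_right (by omega) (hdeg N))
    exact_mod_cast h1
  obtain ⟨P, hPm, hPd, hPc, hPS, hPi, hPn⟩ := ppc (fun N => (h N).pm) (fun N => irr_q (h N).pm (h N).pi)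
    (by omega : 1 ≤ r) hr hcb
  have hab : ∃ C₁ : ℕ, ∀ᶠ N in UU, |al N| ≤ ((H N + 2 : ℕ) : ℝ) ^ C₁ := by
    refine ⟨n' * (n' + 1) + 2, Filter.Eventually.of_forall fun N => ?_⟩
    obtain ⟨hk, -, -, hbd⟩ := hSg N
    have h1 := hbd (Complex.ofRealHom.comp (K N).subtype)
    have h2 : (Complex.ofRealHom.comp (K N).subtype) ⟨al N, hk⟩ = (al N : ℂ) := rfl
    rw [h2, Complex.norm_real, Real.norm_eq_abs] at h1
    refine h1.trans ?_
    have h3 : H N ^ (n' * (n' + 1) + 2) ≤ (H N + 2) ^ (n' * (n' + 1) + 2) := Nat.pow_le_pow_left (by omega) _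
    exact_mod_cast h3
  have hPg := hPn al γ hal hab hap
  -- the coordinate
  have hGh0 : Gh ≠ 0 := hGi.ne_zero
  obtain ⟨c, hcd, hct⟩ := cor_ex hGd hGh0
  have hL0 : MvPolynomial.aeval ![(⟨qz x, x_mem H x y⟩ : LL H x y), (⟨qz y, y_mem H x y⟩ : LL H x y)] Gh = 0 := by
    have e1 : (LL H x y).val (MvPolynomial.aeval ![(⟨qz x, x_mem H x y⟩ : LL H x y),
        (⟨qz y, y_mem H x y⟩ : LL H x y)] Gh) = 0 := by
      rw [MvPolynomial.comp_aeval_apply, ← hgz]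
      congr 2
      funext i
      fin_cases i <;> rfl
    exact (LL H x y).val.injective (e1.trans (map_zero _).symm)
  have hix := cor_x hGd.le hct hL0
  have hiy := cor_y hGd.le hct hL0
  obtain ⟨hfd, hfr⟩ := cor_fin hGd.le hct hL0 (wx_top H x y)
  rw [← xl_eq] at hix hiy hfd hfr
  have hpole := xl_not hH2 hb2 hix hiy
  have hov := ov_oo H x y
  have hp' := hpole
  rw [xl_eq] at hp'
  have hxt := cor_xt hGd.le hct hL0 hov hp'
  have hyt := cor_yt hGd.le hct hL0 hov hp'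
  rw [← xl_eq] at hxt hyt
  have hV : ((xl c H x y : LL H x y) : QS) ∉ V0 H := hpole
  have hFF : FF (Q0 H) (xl c H x y) := by
    refine ⟨fun ha => ?_, hfd⟩
    have h1 := q0_alg H _ (ha.algHom (LL H x y).val)
    exact hpole (hov ⟨_, h1⟩)
  have hInf : Inf (Q0 H) (xl c H x y) (OO H x y) := ⟨hov, hpole⟩
  obtain ⟨g, hg⟩ : ∃ g : LL H x y, (g : QS) = cl γ := ⟨⟨cl γ, hγm⟩, rfl⟩
  have hPgO : Polynomial.aeval g P ∈ (OO H x y).nonunits := by
    have hev : algebraMap (LL H x y) QS (Polynomial.aeval g P) = Polynomial.aeval (cl γ : QS) P := by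
      rw [← Polynomial.aeval_algebraMap_apply]
      congr 1
      exact congrArg _ hg
    have hm : ∀ z : LL H x y, z ∈ OO H x y ↔ algebraMap (LL H x y) QS z ∈ V0 H := fun z => Iff.rfl
    rw [ValuationSubring.mem_nonunits_iff_or, hm, map_inv₀, hev]
    rcases (ValuationSubring.mem_nonunits_iff_or (V0 H)).1 hPg with h1 | h1
    · left
      apply (algebraMap (LL H x y) QS).injective
      rw [hev, h1, map_zero]
    · right
      exact h1
  have hgO := Pool.Agent.H12.GN.gO hov hPi hPgO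
  -- the degree
  have hrd : r ≤ d := by
    obtain ⟨π, e, π0, πm, huni, e1, x1, x2⟩ := Pool.Agent.H85.LK.unif hFF hInf
    obtain ⟨s, z, zO, hes, hsp⟩ := Pool.Agent.H12.GN.kbs hFF hInf π0 πm e1 x1 x2 hPi hgO hPgO
    have hs1 : 1 ≤ s := by
      by_contra hs
      have hs0 : s = 0 := by omega
      subst hs0
      obtain ⟨A, hA⟩ := hsp 1 (OO H x y).one_mem
      rw [Finset.univ_eq_empty, Finset.sum_empty, sub_zero] at hA
      rw [ValuationSubring.mem_nonunits_iff, map_one] at hA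
      exact lt_irrefl _ hA
    rw [hPd] at hes
    calc r ≤ r * s := Nat.le_mul_of_pos_right _ hs1
      _ ≤ e * (r * s) := Nat.le_mul_of_pos_left _ e1
      _ ≤ d := hes.trans hfr
  refine ⟨r, d, Gh, P, al, γ, g, c, ?_⟩
  exact {
    d1 := by omega
    dn := hdn
    rd := hrd
    nr := hr
    gd := hd
    gt := hGd
    gu := hU
    gz := hgz
    gS := hGS
    gi := hGi
    cd := hcd
    ct := hct
    ff := hFF
    fin := hfr
    ix := hix
    iy := hiy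
    xt := hxt
    yt := hyt
    big := xl_big hpole
    inf := hInf
    uni := fun W hW => Pool.Agent.H12.ON.uni H (LL H x y) (xl c H x y)
      (mem_zs.2 ⟨fun N => x N + c * y N, rfl⟩) hV hFF W hW.base hW.pole
    rc := sq_cl H x y
    pm := hPm
    pd := hPd
    pc := hPc
    pS := hPS
    pi := hPi
    rt := hal
    gg := hg
    gO := hgO
    gP := hPgO
    ap := hap }

end Pool.Agent.H12.SF
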